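import Mathlib

-- merged part: Pool.Agent.Work.MP_ea58a7_an.Core
section
/-!
Abstract core of the transitivity argument, in the coordinate where the two branches are
`y ↦ β y` on `[a, c]` and `y ↦ β y - 1` on `[c, a+1]`, with `c = (a+1)/β`.
-/

set_option autoImplicit false

namespace Pool.Agent.Work.MP_ea58a7_an

open Set

/-- The data of a closed set that is invariant under both branches, on intervals. -/
structure Inv (β a c : ℝ) (X : Set ℝ) : Prop where
  hβ : 1 < β
  ha : 0 ≤ a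
  hc : β * c = a + 1
  haβ : β * a ≤ 1
  hw : β * (a + 1) - 1 ≤ a + 1
  closed : IsClosed X
  left : ∀ u v, a ≤ u → u < v → v ≤ c → Icc u v ⊆ X → Icc (β * u) (β * v) ⊆ X
  right : ∀ u v, c ≤ u → u < v → v ≤ a + 1 → Icc u v ⊆ X → Icc (β * u - 1) (β * v - 1) ⊆ X

variable {β a c : ℝ} {X : Set ℝ}

lemma Inv.c_pos (h : Inv β a c X) : 0 < c := by
  have := h.hβ; have := h.ha; have := h.hc
  by_contra hc
  push Not at hc
  nlinarith

lemma Inv.c_lt (h : Inv β a c X) : c < a + 1 := by
  have := h.hβ; have := h.c_pos; have := h.hc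
  nlinarith

lemma Inv.a_lt (h : Inv β a c X) : a < c := by
  have h1 := h.hβ; have h2 := h.ha; have h3 := h.hc; have h4 := h.hw; have h5 := h.haβ
  by_contra hc
  push Not at hc
  have h6 : β * c ≤ β * a := mul_le_mul_of_nonneg_left hc (by linarith)
  have h7 : a = 0 := by linarith
  have := h.c_pos
  linarith

lemma Inv.lpow (h : Inv β a c X) (k : ℕ) : ∀ u v, a ≤ u → u < v → β ^ k * v ≤ a + 1 →
    Icc u v ⊆ X → Icc (β ^ k * u) (β ^ k * v) ⊆ X := by
  induction k with
  | zero => intro u v _ _ _ hI; simpa using hI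
  | succ k ih =>
    intro u v hu huv hv hI
    have hβ := h.hβ
    have hβ0 : 0 < β := by linarith
    have hu0 : 0 ≤ u := le_trans h.ha hu
    have hv0 : 0 < v := lt_of_le_of_lt hu0 huv
    have hk1 : 1 ≤ β ^ k := one_le_pow₀ hβ.le
    have hkc : β ^ k * v ≤ c := by
      have : β * (β ^ k * v) ≤ β * c := by rw [h.hc]; calc β * (β ^ k * v) = β ^ (k+1) * v := by ring
        _ ≤ a + 1 := hv
      exact le_of_mul_le_mul_left this hβ0
    have h1 := ih u v hu huv (le_trans hkc h.c_lt.le) hI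
    have h2 := h.left (β ^ k * u) (β ^ k * v) (by linarith only [hu, hu0, hk1, mul_nonneg_of_nonpos_of_nonpos (Mathlib.Tactic.Linarith.sub_nonpos_of_le hu0) (Mathlib.Tactic.Linarith.sub_nonpos_of_le hk1)])
      (mul_lt_mul_of_pos_left huv (by positivity)) hkc h1
    have e1 : β ^ (k+1) * u = β * (β ^ k * u) := by ring
    have e2 : β ^ (k+1) * v = β * (β ^ k * v) := by ring
    rw [e1, e2]; exact h2

/-- An interval covering a fundamental domain of the left branch extends up to `a + 1`. -/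
lemma Inv.fund_aux (h : Inv β a c X) (N : ℕ) : ∀ u v, a ≤ u → u < v → v ≤ a + 1 → β * u ≤ v →
    a + 1 ≤ β ^ N * v → Icc u v ⊆ X → Icc u (a + 1) ⊆ X := by
  have hβ := h.hβ
  have hβ0 : 0 < β := by linarith
  induction N with
  | zero =>
    intro u v _ _ hv _ hN hI
    have : v = a + 1 := by simp at hN; linarith
    rwa [← this]
  | succ N ih =>
    intro u v hu huv hv hβu hN hI
    have hu0 : 0 ≤ u := le_trans h.ha hu
    have hv0 : 0 < v := lt_of_le_of_lt hu0 huv
    by_cases hvc : v ≤ c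
    · have h1 := h.left u v hu huv hvc hI
      have h2 : Icc u (β * v) ⊆ X := by
        intro x hx
        by_cases hxv : x ≤ v
        · exact hI ⟨hx.1, hxv⟩
        · push Not at hxv
          exact h1 ⟨by linarith, hx.2⟩
      refine ih u (β * v) hu (by linarith only [huv, hβ, hu0, mul_pos_of_neg_of_neg (Mathlib.Tactic.Linarith.sub_neg_of_lt hβ) (Mathlib.Tactic.Linarith.sub_neg_of_lt huv), mul_nonneg_of_nonpos_of_nonpos (le_of_lt (Mathlib.Tactic.Linarith.sub_neg_of_lt hβ)) (Mathlib.Tactic.Linarith.sub_nonpos_of_le hu0)]) ?_ (by linarith only [huv, hβ, mul_pos_of_neg_of_neg (Mathlib.Tactic.Linarith.sub_neg_of_lt hβ) (Mathlib.Tactic.Linarith.sub_neg_of_lt huv)]) ?_ h2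
      · rw [← h.hc]; exact mul_le_mul_of_nonneg_left hvc hβ0.le
      · calc a + 1 ≤ β ^ (N+1) * v := hN
          _ = β ^ N * (β * v) := by ring
    · push Not at hvc
      by_cases huc : u < c
      · have h1 := h.left u c hu huc le_rfl (fun x hx => hI ⟨hx.1, le_trans hx.2 hvc.le⟩)
        rw [h.hc] at h1
        intro x hx
        by_cases hxv : x ≤ v
        · exact hI ⟨hx.1, hxv⟩
        · push Not at hxv
          exact h1 ⟨by linarith, hx.2⟩
      · push Not at huc
        have : β * c ≤ β * u := mul_le_mul_of_nonneg_left huc hβ0.le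
        have : v = a + 1 := by have := h.hc; linarith
        rwa [← this]

lemma Inv.fund (h : Inv β a c X) (u v : ℝ) (hu : a ≤ u) (huv : u < v) (hv : v ≤ a + 1)
    (hβu : β * u ≤ v) (hI : Icc u v ⊆ X) : Icc u (a + 1) ⊆ X := by
  have hv0 : 0 < v := lt_of_le_of_lt (le_trans h.ha hu) huv
  obtain ⟨N, hN⟩ := pow_unbounded_of_one_lt ((a + 1) / v) h.hβ
  refine h.fund_aux N u v hu huv hv hβu ?_ hI
  rw [div_lt_iff₀ hv0] at hN
  exact hN.le

/-- If the whole right branch is in `X`, everything is. -/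
lemma Inv.of_right (h : Inv β a c X) (hI : Icc c (a + 1) ⊆ X) : Icc a (a + 1) ⊆ X := by
  have hβ := h.hβ
  have h1 := h.right c (a + 1) le_rfl h.c_lt le_rfl hI
  have e : β * c - 1 = a := by rw [h.hc]; ring
  rw [e] at h1
  have := h.ha
  exact h.fund a _ le_rfl (by linarith only [hβ, this, mul_nonneg_of_nonpos_of_nonpos (le_of_lt (Mathlib.Tactic.Linarith.sub_neg_of_lt hβ)) (Mathlib.Tactic.Linarith.sub_nonpos_of_le this)]) h.hw (by nlinarith) h1

lemma Inv.of_fund (h : Inv β a c X) (u v : ℝ) (hu : a ≤ u) (huc : u ≤ c) (huv : u < v)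
    (hv : v ≤ a + 1) (hβu : β * u ≤ v) (hI : Icc u v ⊆ X) : Icc a (a + 1) ⊆ X :=
  h.of_right (fun _ hx => h.fund u v hu huv hv hβu hI ⟨le_trans huc hx.1, hx.2⟩)

/-- Every interval of `X` eventually produces a longer interval of `X` around `c`. -/
lemma Inv.expand_aux (h : Inv β a c X) (N : ℕ) : ∀ u v, a ≤ u → u < v → v ≤ a + 1 →
    1 < β ^ N * (v - u) → Icc u v ⊆ X →
    ∃ u' v', a ≤ u' ∧ u' < c ∧ c < v' ∧ v' ≤ a + 1 ∧ v - u ≤ v' - u' ∧ Icc u' v' ⊆ X := by
  have hβ := h.hβ
  have hβ0 : 0 < β := by linarith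
  induction N with
  | zero =>
    intro u v hu _ hv hN _
    simp at hN; linarith
  | succ N ih =>
    intro u v hu huv hv hN hI
    have hu0 : 0 ≤ u := le_trans h.ha hu
    by_cases hvc : v ≤ c
    · have h1 := h.left u v hu huv hvc hI
      obtain ⟨u', v', g1, g2, g3, g4, g5, g6⟩ := ih (β * u) (β * v) (by linarith only [hu, hβ, hu0, mul_nonneg_of_nonpos_of_nonpos (le_of_lt (Mathlib.Tactic.Linarith.sub_neg_of_lt hβ)) (Mathlib.Tactic.Linarith.sub_nonpos_of_le hu0)])
        (by linarith only [huv, hβ, mul_pos_of_neg_of_neg (Mathlib.Tactic.Linarith.sub_neg_of_lt hβ) (Mathlib.Tactic.Linarith.sub_neg_of_lt huv)]) (by rw [← h.hc]; exact mul_le_mul_of_nonneg_left hvc hβ0.le)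
        (by calc 1 < β ^ (N+1) * (v - u) := hN
            _ = β ^ N * (β * v - β * u) := by ring) h1
      exact ⟨u', v', g1, g2, g3, g4, by linarith only [g5, hβ, huv, mul_pos_of_neg_of_neg (Mathlib.Tactic.Linarith.sub_neg_of_lt hβ) (Mathlib.Tactic.Linarith.sub_neg_of_lt huv)], g6⟩
    · push Not at hvc
      by_cases huc : u < c
      · exact ⟨u, v, hu, huc, hvc, hv, le_rfl, hI⟩
      · push Not at huc
        have h1 := h.right u v huc huv hv hI
        have h2 : β * c ≤ β * u := mul_le_mul_of_nonneg_left huc hβ0.le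
        have h3 : β * v ≤ β * (a + 1) := mul_le_mul_of_nonneg_left hv hβ0.le
        obtain ⟨u', v', g1, g2, g3, g4, g5, g6⟩ := ih (β * u - 1) (β * v - 1)
          (by have := h.hc; linarith) (by linarith only [huv, hβ, mul_pos_of_neg_of_neg (Mathlib.Tactic.Linarith.sub_neg_of_lt hβ) (Mathlib.Tactic.Linarith.sub_neg_of_lt huv)]) (by have := h.hw; linarith)
          (by calc 1 < β ^ (N+1) * (v - u) := hN
            _ = β ^ N * (β * v - 1 - (β * u - 1)) := by ring) h1
        exact ⟨u', v', g1, g2, g3, g4, by linarith only [g5, hβ, huv, mul_pos_of_neg_of_neg (Mathlib.Tactic.Linarith.sub_neg_of_lt hβ) (Mathlib.Tactic.Linarith.sub_neg_of_lt huv)], g6⟩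

lemma Inv.expand (h : Inv β a c X) (u v : ℝ) (hu : a ≤ u) (huv : u < v) (hv : v ≤ a + 1)
    (hI : Icc u v ⊆ X) :
    ∃ u' v', a ≤ u' ∧ u' < c ∧ c < v' ∧ v' ≤ a + 1 ∧ v - u ≤ v' - u' ∧ Icc u' v' ⊆ X := by
  have h0 : 0 < v - u := by linarith
  obtain ⟨N, hN⟩ := pow_unbounded_of_one_lt (1 / (v - u)) h.hβ
  refine h.expand_aux N u v hu huv hv ?_ hI
  rwa [div_lt_iff₀ h0] at hN

/-- The maximal interval of `X` around `c`. -/
lemma Inv.maximal (h : Inv β a c X) (u v : ℝ) (hu : a ≤ u) (huc : u < c) (hcv : c < v)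
    (hv : v ≤ a + 1) (hI : Icc u v ⊆ X) :
    ∃ u₀ v₀, a ≤ u₀ ∧ u₀ < c ∧ c < v₀ ∧ v₀ ≤ a + 1 ∧ Icc u₀ v₀ ⊆ X ∧
      ∀ u' v', a ≤ u' → u' ≤ c → c ≤ v' → v' ≤ a + 1 → Icc u' v' ⊆ X → u₀ ≤ u' ∧ v' ≤ v₀ := by
  set SL : Set ℝ := {x | a ≤ x ∧ Icc x c ⊆ X} with hSL
  set SR : Set ℝ := {x | x ≤ a + 1 ∧ Icc c x ⊆ X} with hSR
  have huL : u ∈ SL := ⟨hu, fun x hx => hI ⟨hx.1, le_trans hx.2 hcv.le⟩⟩
  have hvR : v ∈ SR := ⟨hv, fun x hx => hI ⟨le_trans huc.le hx.1, hx.2⟩⟩
  have bL : BddBelow SL := ⟨a, fun x hx => hx.1⟩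
  have bR : BddAbove SR := ⟨a + 1, fun x hx => hx.1⟩
  have h1 : sInf SL < c := lt_of_le_of_lt (csInf_le bL huL) huc
  have h2 : c < sSup SR := lt_of_lt_of_le hcv (le_csSup bR hvR)
  have h3 : Ioo (sInf SL) (sSup SR) ⊆ X := by
    intro x hx
    by_cases hxc : x ≤ c
    · obtain ⟨y, hy, hyx⟩ := exists_lt_of_csInf_lt ⟨u, huL⟩ hx.1
      exact hy.2 ⟨hyx.le, hxc⟩
    · push Not at hxc
      obtain ⟨y, hy, hyx⟩ := exists_lt_of_lt_csSup ⟨v, hvR⟩ hx.2
      exact hy.2 ⟨hxc.le, hyx.le⟩
  refine ⟨sInf SL, sSup SR, le_csInf ⟨u, huL⟩ (fun x hx => hx.1), h1, h2,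
    csSup_le ⟨v, hvR⟩ (fun x hx => hx.1), ?_, ?_⟩
  · rw [← closure_Ioo (lt_trans h1 h2).ne]
    exact closure_minimal h3 h.closed
  · intro u' v' g1 g2 g3 g4 g5
    exact ⟨csInf_le bL ⟨g1, fun x hx => g5 ⟨hx.1, le_trans hx.2 g3⟩⟩,
      le_csSup bR ⟨g4, fun x hx => g5 ⟨le_trans g2 hx.1, hx.2⟩⟩⟩

/-- The first time a positive number is pushed past `c` by the left branch. -/
lemma Inv.first_pass (h : Inv β a c X) (v : ℝ) (hv0 : 0 < v) (hv : v ≤ a + 1) :
    ∃ k : ℕ, c < β ^ k * v ∧ β ^ k * v ≤ a + 1 ∧ ∀ j : ℕ, c < β ^ j * v → k ≤ j := by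
  have hβ := h.hβ
  have hex : ∃ k : ℕ, c < β ^ k * v := by
    obtain ⟨N, hN⟩ := pow_unbounded_of_one_lt (c / v) h.hβ
    exact ⟨N, by rwa [div_lt_iff₀ hv0] at hN⟩
  classical
  refine ⟨Nat.find hex, Nat.find_spec hex, ?_, fun j hj => Nat.find_min' hex hj⟩
  rcases Nat.eq_zero_or_pos (Nat.find hex) with h0 | h0
  · rw [h0]; simpa using hv
  · obtain ⟨m, hm⟩ : ∃ m, Nat.find hex = m + 1 := ⟨Nat.find hex - 1, by omega⟩
    have h1 := Nat.find_min hex (show m < Nat.find hex by omega)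
    push Not at h1
    rw [hm, ← h.hc]
    calc β ^ (m + 1) * v = β * (β ^ m * v) := by ring
      _ ≤ β * c := mul_le_mul_of_nonneg_left h1 (by linarith only [hβ])

lemma key_ineq {β t : ℝ} (hβ : 1 < β) (h1 : β + 1 < β * t) (h2 : β ^ 2 ≤ t) : t + β < t ^ 2 := by
  have hβ0 : 0 < β := by linarith
  by_cases hc : β + 1 < β ^ 3
  · have h3 : 1 < β ^ 2 := by linarith only [hβ, mul_pos_of_neg_of_neg (Mathlib.Tactic.Linarith.sub_neg_of_lt hβ) (Mathlib.Tactic.Linarith.sub_neg_of_lt hβ)]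
    have h4 : β ^ 2 * (β ^ 2 - 1) ≤ t * (t - 1) := by (refine le_of_not_gt fun h_nl => ?_; linarith only [h_nl, h2, hβ, h1, hc, mul_nonneg_of_nonpos_of_nonpos (Mathlib.Tactic.Linarith.sub_nonpos_of_le (sq_nonneg β)) (Mathlib.Tactic.Linarith.sub_nonpos_of_le h2), mul_nonneg_of_nonpos_of_nonpos (le_of_lt (Mathlib.Tactic.Linarith.sub_neg_of_lt hβ)) (Mathlib.Tactic.Linarith.sub_nonpos_of_le h2), mul_pos_of_neg_of_neg (Mathlib.Tactic.Linarith.sub_neg_of_lt hβ) (Mathlib.Tactic.Linarith.sub_neg_of_lt h_nl), mul_nonneg_of_nonpos_of_nonpos (le_of_lt (Mathlib.Tactic.Linarith.sub_neg_of_lt h1)) (Mathlib.Tactic.Linarith.sub_nonpos_of_le h2), mul_nonneg_of_nonpos_of_nonpos (Mathlib.Tactic.Linarith.sub_nonpos_of_le h2) (Mathlib.Tactic.Linarith.sub_nonpos_of_le h2), mul_nonneg_of_nonpos_of_nonpos (Mathlib.Tactic.Linarith.sub_nonpos_of_le h2) (le_of_lt (Mathlib.Tactic.Linarith.sub_neg_of_lt hc))])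
    linarith only [hc, h4, hβ, mul_pos_of_neg_of_neg (Mathlib.Tactic.Linarith.sub_neg_of_lt hβ) (Mathlib.Tactic.Linarith.sub_neg_of_lt hc)]
  · push Not at hc
    have ht : 1 < t := by nlinarith
    have h3 : 1 < β * (t - 1) := by linarith
    have h4 : (β + 1) * 1 < (β * t) * (β * (t - 1)) := by
      apply mul_lt_mul'' h1 h3 <;> linarith
    have h5 : β ^ 2 * β < β ^ 2 * (t * (t - 1)) := by linarith only [hc, h4]
    have h6 : β < t * (t - 1) := lt_of_mul_lt_mul_left h5 (by positivity)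
    linarith only [h6]

lemma fin_ineq {β t x y : ℝ} (hkey : t + β < t ^ 2) (ht0 : 0 < t) (hx : 0 < x) (hy : 0 < y)
    (h1 : t * x ≤ x + y) (h2 : t ^ 2 * y ≤ β * (x + y)) : False := by
  have h3 : t * (t * x) ≤ t * (x + y) := mul_le_mul_of_nonneg_left h1 ht0.le
  have h4 : (t + β) * (x + y) < t ^ 2 * (x + y) := mul_lt_mul_of_pos_right hkey (by linarith)
  linarith only [h2, h3, h4]

lemma fin_ineq2 {β t x y : ℝ} (hβ : 0 < β) (ht1 : β + 1 < β * t) (hx : 0 < x) (hy : 0 < y)
    (h1 : t * x ≤ x + y) (h2 : β * t * y ≤ x + y) : False := by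
  have h3 : β * (t * x) ≤ β * (x + y) := mul_le_mul_of_nonneg_left h1 hβ.le
  have h4 : (β + 1) * (x + y) < β * t * (x + y) := mul_lt_mul_of_pos_right ht1 (by linarith)
  linarith only [h2, h3, h4]

lemma t_ineq {β t w : ℝ} (hw0 : 0 < w) (hwβ : w ≤ β) (h1 : w + 1 < t * w) : β + 1 < β * t := by
  have h2 : 1 < (t - 1) * w := by linarith
  have h3 : 0 < t - 1 := by
    by_contra hh
    push Not at hh
    linarith only [h1, hw0, hh, mul_nonneg_of_nonpos_of_nonpos (le_of_lt (Mathlib.Tactic.Linarith.sub_neg_of_lt hw0)) (Mathlib.Tactic.Linarith.sub_nonpos_of_le hh)]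
  have h4 : (t - 1) * w ≤ (t - 1) * β := mul_le_mul_of_nonneg_left hwβ h3.le
  linarith

lemma w_facts {β a : ℝ} (hβ : 1 < β) (ha : 0 ≤ a) (haβ : β * a ≤ 1) :
    a < β * (a + 1) - 1 ∧ β * (a + 1) - 1 ≤ β ∧ β ^ 2 * a ≤ β * (a + 1) - 1 := by
  refine ⟨by linarith only [hβ, ha, mul_nonneg_of_nonpos_of_nonpos (le_of_lt (Mathlib.Tactic.Linarith.sub_neg_of_lt hβ)) (Mathlib.Tactic.Linarith.sub_nonpos_of_le ha)], by nlinarith, by nlinarith⟩

theorem Inv.full (h : Inv β a c X) (u v : ℝ) (hu : a ≤ u) (huv : u < v) (hv : v ≤ a + 1)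
    (hI : Icc u v ⊆ X) : Icc a (a + 1) ⊆ X := by
  by_contra hno
  have hβ := h.hβ
  have hβ0 : 0 < β := by linarith
  have ha := h.ha
  have hc := h.hc
  have hac := h.a_lt
  obtain ⟨u1, v1, g1, g2, g3, g4, -, g6⟩ := h.expand u v hu huv hv hI
  obtain ⟨u₀, v₀, m1, m2, m3, m4, m5, mx⟩ := h.maximal u1 v1 g1 g2 g3 g4 g6
  clear g1 g2 g3 g4 g6 hu huv hv hI u v u1 v1
  -- every interval of X has length at most P
  have RL0 : ∀ u v, a ≤ u → u < v → v ≤ a + 1 → Icc u v ⊆ X → v - u ≤ v₀ - u₀ := by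
    intro u v hu huv hv hI
    obtain ⟨u', v', k1, k2, k3, k4, k5, k6⟩ := h.expand u v hu huv hv hI
    have := mx u' v' k1 k2.le k3.le k4 k6
    linarith [this.1, this.2]
  obtain ⟨w, hwdef⟩ : ∃ w, w = β * (a + 1) - 1 := ⟨_, rfl⟩
  have hw : w ≤ a + 1 := hwdef ▸ h.hw
  obtain ⟨haw, hwβ, hβ2a⟩ := w_facts hβ ha h.haβ
  rw [← hwdef] at haw hwβ hβ2a
  have hw0 : 0 < w := lt_of_le_of_lt ha haw
  obtain ⟨i, i1, i2, i3⟩ := h.first_pass w hw0 hw
  have hi1 : 1 ≤ β ^ i := one_le_pow₀ hβ.le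
  have hi0 : 0 < β ^ i := by positivity
  have hup : ∀ (k : ℕ) (u : ℝ), a ≤ u → a ≤ β ^ k * u := by
    intro k u hu
    exact le_trans hu (le_mul_of_one_le_left (le_trans ha hu) (one_le_pow₀ hβ.le))
  have RL : ∀ u v, a ≤ u → u < v → v ≤ w → Icc u v ⊆ X → β ^ i * (v - u) ≤ v₀ - u₀ := by
    intro u v hu huv hv hI
    have hb : β ^ i * v ≤ a + 1 := le_trans (mul_le_mul_of_nonneg_left hv hi0.le) i2
    have h1 := h.lpow i u v hu huv hb hI
    have := RL0 _ _ (hup i u hu) (mul_lt_mul_of_pos_left huv hi0) hb h1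
    linarith
  -- passing over c and applying the right branch
  have RL2 : ∀ u v, c ≤ u → u < v → v ≤ a + 1 → Icc u v ⊆ X →
      β ^ i * (β * (v - u)) ≤ v₀ - u₀ := by
    intro u v hu huv hv hI
    have h1 := h.right u v hu huv hv hI
    have h2 : β * c ≤ β * u := mul_le_mul_of_nonneg_left hu hβ0.le
    have h3 : β * v ≤ β * (a + 1) := mul_le_mul_of_nonneg_left hv hβ0.le
    have h4 : β * u < β * v := mul_lt_mul_of_pos_left huv hβ0
    have := RL _ _ (by linarith) (by linarith) (by linarith) h1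
    have e : β * v - 1 - (β * u - 1) = β * (v - u) := by ring
    rwa [e] at this
  obtain ⟨p, hp⟩ : ∃ p, p = c - u₀ := ⟨_, rfl⟩
  obtain ⟨q, hq⟩ : ∃ q, q = v₀ - c := ⟨_, rfl⟩
  have hp0 : 0 < p := by linarith
  have hq0 : 0 < q := by linarith
  have hP : v₀ - u₀ = p + q := by rw [hp, hq]; ring
  rw [hP] at RL RL0 RL2
  have n1 : v₀ < β * u₀ := by
    by_contra hh
    push Not at hh
    exact hno (h.of_fund u₀ v₀ m1 m2.le (by linarith) m4 hh m5)
  -- the right piece
  have eq1 : β * v₀ - 1 = a + β * q := by rw [hq, mul_sub]; linarith only [hc]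
  have A0 : Icc a (a + β * q) ⊆ X := by
    have := h.right c v₀ le_rfl m3 m4 (fun x hx => m5 ⟨le_trans m2.le hx.1, hx.2⟩)
    have e1 : β * c - 1 = a := by linarith only [hc]
    rwa [e1, eq1] at this
  have hAq : 0 < β * q := by positivity
  have hAw : a + β * q ≤ w := by
    have : β * v₀ ≤ β * (a + 1) := mul_le_mul_of_nonneg_left m4 hβ0.le
    linarith only [hwdef, eq1, this]
  have n2 : a + β * q < β * a := by
    by_contra hh
    push Not at hh
    exact hno (h.of_fund a _ le_rfl hac.le (by linarith) (by linarith) hh A0)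
  -- the left piece
  have B0 : Icc (a + 1 - β * p) (a + 1) ⊆ X := by
    have := h.left u₀ c m1 m2 le_rfl (fun x hx => m5 ⟨hx.1, le_trans hx.2 m3.le⟩)
    have e1 : β * u₀ = a + 1 - β * p := by rw [hp, mul_sub]; linarith only [hc]
    rwa [e1, hc] at this
  have hBp : 0 < β * p := by positivity
  have n3 : c < a + 1 - β * p := by
    by_contra hh
    push Not at hh
    exact hno (h.of_right (fun x hx => B0 ⟨le_trans hh hx.1, hx.2⟩))
  have e3 : β * (a + 1 - β * p) - 1 = w - β ^ 2 * p := by rw [hwdef]; ring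
  have B1 : Icc (w - β ^ 2 * p) w ⊆ X := by
    have := h.right _ _ n3.le (by linarith) le_rfl B0
    rwa [e3, ← hwdef] at this
  have hB1 : a ≤ w - β ^ 2 * p := by
    have : β * c ≤ β * (a + 1 - β * p) := mul_le_mul_of_nonneg_left n3.le hβ0.le
    linarith only [hc, hwdef, this]
  have hB2 : 0 < β ^ 2 * p := by positivity
  have B2 := h.lpow i _ _ hB1 (by linarith only [hB2]) i2 B1
  obtain ⟨t, ht⟩ : ∃ t, t = β ^ i * β ^ 2 := ⟨_, rfl⟩
  have ht0 : 0 < t := by rw [ht]; positivity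
  have ht2 : β ^ 2 ≤ t := by rw [ht]; exact le_mul_of_one_le_left (by positivity) hi1
  have ht1 : β + 1 < β * t := by
    have e : β ^ 2 * c = w + 1 := by
      calc β ^ 2 * c = β * (β * c) := by ring
        _ = w + 1 := by rw [hc, hwdef]; ring
    have h1 : w + 1 < t * w := by
      calc w + 1 = β ^ 2 * c := e.symm
        _ < β ^ 2 * (β ^ i * w) := mul_lt_mul_of_pos_left i1 (by positivity)
        _ = t * w := by rw [ht]; ring
    exact t_ineq hw0 hwβ h1
  have hkey := key_ineq hβ ht1 ht2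
  have tp : t * p ≤ p + q := by
    calc t * p = β ^ i * (w - (w - β ^ 2 * p)) := by rw [ht]; ring
      _ ≤ p + q := RL _ _ hB1 (by linarith only [hB2]) le_rfl B1
  -- first pass of the right piece
  obtain ⟨j, j1, j2, -⟩ := h.first_pass (a + β * q) (by linarith only [ha, hAq]) (by linarith only [hβ, hwdef, hw, n2])
  have hj0 : 0 < β ^ j := by positivity
  have hij : i + 1 ≤ j := by
    have h1 : β * (a + β * q) < w := by
      calc β * (a + β * q) < β * (β * a) := mul_lt_mul_of_pos_left n2 hβ0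
        _ = β ^ 2 * a := by ring
        _ ≤ w := hβ2a
    rcases Nat.eq_zero_or_pos j with h0 | h0
    · rw [h0, pow_zero, one_mul] at j1
      have := mul_lt_mul_of_pos_left j1 hβ0
      linarith only [hc, hw, h1, this]
    · obtain ⟨m, rfl⟩ : ∃ m, j = m + 1 := ⟨j - 1, by omega⟩
      have : c < β ^ m * w := by
        calc c < β ^ (m + 1) * (a + β * q) := j1
          _ = β ^ m * (β * (a + β * q)) := by ring
          _ ≤ β ^ m * w := mul_le_mul_of_nonneg_left h1.le (by positivity)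
      have := i3 m this
      omega
  have hpow : β ^ (i + 1) ≤ β ^ j := pow_le_pow_right₀ hβ.le hij
  have A2 := h.lpow j _ _ le_rfl (by linarith only [hAq]) j2 A0
  have hja : a ≤ β ^ j * a := hup j a le_rfl
  have hltA : β ^ j * a < β ^ j * (a + β * q) := mul_lt_mul_of_pos_left (by linarith only [hAq]) hj0
  have jq : β ^ j * (β * q) ≤ p + q := by
    calc β ^ j * (β * q) = β ^ j * (a + β * q) - β ^ j * a := by ring
      _ ≤ p + q := RL0 _ _ hja hltA j2 A2
  have tq : t * q ≤ p + q := by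
    calc t * q = β ^ (i + 1) * (β * q) := by rw [ht]; ring
      _ ≤ β ^ j * (β * q) := mul_le_mul_of_nonneg_right hpow hAq.le
      _ ≤ p + q := jq
  by_cases cR : β ^ j * a < c
  · by_cases cL : β ^ i * (w - β ^ 2 * p) < c
    · -- both pieces return at the first pass
      have r1 := (mx _ _ hja cR.le j1.le j2 A2).1
      have r2 := (mx _ _ (hup i _ hB1) cL.le i1.le i2 B2).2
      obtain ⟨m, rfl⟩ : ∃ m, j = m + 1 := ⟨j - 1, by omega⟩
      have r3 : β ^ i * w < β ^ m * w := by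
        calc β ^ i * w ≤ v₀ := r2
          _ < β * u₀ := n1
          _ ≤ β * (β ^ (m + 1) * a) := mul_le_mul_of_nonneg_left r1 hβ0.le
          _ = β ^ m * (β ^ 2 * a) := by ring
          _ ≤ β ^ m * w := mul_le_mul_of_nonneg_left hβ2a (by positivity)
      have r4 : i < m := (pow_lt_pow_iff_right₀ hβ).1 (lt_of_mul_lt_mul_right r3 hw0.le)
      have hpow2 : β ^ (i + 2) ≤ β ^ (m + 1) := pow_le_pow_right₀ hβ.le (by omega)
      have tq2 : β * t * q ≤ p + q := by
        calc β * t * q = β ^ (i + 2) * (β * q) := by rw [ht]; ring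
          _ ≤ β ^ (m + 1) * (β * q) := mul_le_mul_of_nonneg_right hpow2 hAq.le
          _ ≤ p + q := jq
      exact fin_ineq2 hβ0 ht1 hp0 hq0 tp tq2
    · -- the left piece passes over c
      push Not at cL
      have hlt : β ^ i * (w - β ^ 2 * p) < β ^ i * w :=
        mul_lt_mul_of_pos_left (by linarith only [hB2]) hi0
      have h1 := RL2 _ _ cL hlt i2 B2
      refine fin_ineq hkey ht0 hq0 hp0 (by linarith only [tq]) ?_
      calc t ^ 2 * p = β * (β ^ i * (β * (β ^ i * w - β ^ i * (w - β ^ 2 * p)))) := by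
            rw [ht]; ring
        _ ≤ β * (p + q) := mul_le_mul_of_nonneg_left h1 hβ0.le
        _ = β * (q + p) := by ring
  · -- the right piece passes over c
    push Not at cR
    have h1 := RL2 _ _ cR hltA j2 A2
    refine fin_ineq hkey ht0 hp0 hq0 tp ?_
    calc t ^ 2 * q = β ^ i * β ^ 3 * q * β ^ (i + 1) := by rw [ht]; ring
      _ ≤ β ^ i * β ^ 3 * q * β ^ j := mul_le_mul_of_nonneg_left hpow (by positivity)
      _ = β * (β ^ i * (β * (β ^ j * (a + β * q) - β ^ j * a))) := by ring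
      _ ≤ β * (p + q) := mul_le_mul_of_nonneg_left h1 hβ0.le

end Pool.Agent.Work.MP_ea58a7_an
end

-- merged part: Pool.Agent.Work.MP_ea58a7_an.Main
section
set_option autoImplicit false

namespace Pool.Agent.Work.MP_ea58a7_an

open Set

/-- If `T` agrees with an increasing affine map on an open interval inside the closure of a
forward invariant set, the image interval is inside that closure too. -/
lemma affine_step (T : ℝ → ℝ) (S : Set ℝ) (hS : ∀ y ∈ S, T y ∈ S) (β k u v : ℝ) (hβ : 0 < β)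
    (huv : u < v) (hT : ∀ x ∈ Ioo u v, T x = β * x + k) (hI : Icc u v ⊆ closure S) :
    Icc (β * u + k) (β * v + k) ⊆ closure S := by
  have hlt : β * u + k < β * v + k := by linarith only [hβ, huv, mul_pos_of_neg_of_neg (Mathlib.Tactic.Linarith.sub_neg_of_lt hβ) (Mathlib.Tactic.Linarith.sub_neg_of_lt huv)]
  rw [← closure_Ioo hlt.ne]
  refine closure_minimal ?_ isClosed_closure
  intro y hy
  have hx : (y - k) / β ∈ Ioo u v := by
    constructor
    · rw [lt_div_iff₀ hβ]; linarith [hy.1]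
    · rw [div_lt_iff₀ hβ]; linarith [hy.2]
  have h1 : (y - k) / β ∈ closure (Ioo u v ∩ S) :=
    isOpen_Ioo.inter_closure ⟨hx, hI (Ioo_subset_Icc_self hx)⟩
  have h2 : β * ((y - k) / β) + k ∈ closure S := by
    refine map_mem_closure (f := fun x => β * x + k) (by fun_prop) h1 ?_
    intro x hx
    show β * x + k ∈ S
    rw [← hT x hx.1]
    exact hS x hx.2
  have e : β * ((y - k) / β) + k = y := by field_simp; ring
  rwa [e] at h2

theorem transitive (α β : ℝ) (hβ : 1 < β) (hα : 0 ≤ α) (hαβ : α + β ≤ 2)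
    (hC : α ≤ 1 - 1 / β ∨ 1 + 1 / β - β ≤ α) (U V : Set ℝ) (hU : IsOpen U) (hV : IsOpen V)
    (hUn : (U ∩ Ico 0 1).Nonempty) (hVn : (V ∩ Ico 0 1).Nonempty) :
    ∃ n : ℕ, ∃ x ∈ U ∩ Ico (0 : ℝ) 1, (fun y : ℝ => Int.fract (β * y + α))^[n] x ∈ V := by
  set T : ℝ → ℝ := fun y => Int.fract (β * y + α) with hT
  set S : Set ℝ := {y | ∃ n : ℕ, ∃ x ∈ U ∩ Ico (0 : ℝ) 1, T^[n] x = y} with hSdef
  have hβ0 : 0 < β := by linarith
  have hβ1 : 0 < β - 1 := by linarith
  have hS : ∀ y ∈ S, T y ∈ S := by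
    rintro y ⟨n, x, hx, rfl⟩
    exact ⟨n + 1, x, hx, Function.iterate_succ_apply' T n x⟩
  obtain ⟨c, hc⟩ : ∃ c, β * c = 1 - α := ⟨(1 - α) / β, by field_simp⟩
  have P1 : ∀ u v, 0 ≤ u → u < v → v ≤ c → Icc u v ⊆ closure S →
      Icc (β * u + α) (β * v + α) ⊆ closure S := by
    intro u v hu huv hv hI
    refine affine_step T S hS β α u v hβ0 huv ?_ hI
    intro x hx
    have h1 : 0 < x := lt_of_le_of_lt hu hx.1
    have h2 : β * x < β * c := mul_lt_mul_of_pos_left (lt_of_lt_of_le hx.2 hv) hβ0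
    have h3 : 0 < β * x := by positivity
    exact Int.fract_eq_self.2 ⟨by linarith, by linarith⟩
  have P2 : ∀ u v, c ≤ u → u < v → v ≤ 1 → Icc u v ⊆ closure S →
      Icc (β * u + (α - 1)) (β * v + (α - 1)) ⊆ closure S := by
    intro u v hu huv hv hI
    refine affine_step T S hS β (α - 1) u v hβ0 huv ?_ hI
    intro x hx
    have h2 : β * c < β * x := mul_lt_mul_of_pos_left (lt_of_le_of_lt hu hx.1) hβ0
    have h3 : β * x < β * 1 := mul_lt_mul_of_pos_left (lt_of_lt_of_le hx.2 hv) hβ0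
    have e : β * x + α = β * x + (α - 1) + 1 := by ring
    show Int.fract (β * x + α) = _
    rw [e, Int.fract_add_one]
    exact Int.fract_eq_self.2 ⟨by linarith, by linarith⟩
  -- a first interval
  obtain ⟨u, v, hu, huv, hv, hI⟩ : ∃ u v : ℝ, 0 ≤ u ∧ u < v ∧ v ≤ 1 ∧ Icc u v ⊆ closure S := by
    obtain ⟨x, hxU, hx0, hx1⟩ := hUn
    obtain ⟨ε, hε, hball⟩ := Metric.isOpen_iff.1 hU x hxU
    have hm : 0 < min (ε / 2) ((1 - x) / 2) := lt_min (by linarith) (by linarith)
    have hm1 := min_le_left (ε / 2) ((1 - x) / 2)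
    have hm2 := min_le_right (ε / 2) ((1 - x) / 2)
    refine ⟨x, x + min (ε / 2) ((1 - x) / 2), hx0, by linarith only [hm], by linarith only [hm, hm2], ?_⟩
    intro y hy
    refine subset_closure ⟨0, y, ⟨hball ?_, ?_, ?_⟩, rfl⟩
    · rw [Metric.mem_ball, Real.dist_eq, abs_lt]
      constructor <;> linarith only [hm, hm1, hy, hy.1, hy.2]
    · linarith only [hx0, hy, hy.1]
    · linarith only [hm, hm2, hy, hy.2]
  have hall : Icc (0 : ℝ) 1 ⊆ closure S := by
    rcases hC with hC | hC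
    · obtain ⟨a, ha⟩ : ∃ a, (β - 1) * a = α := ⟨α / (β - 1), by field_simp⟩
      have ha0 : 0 ≤ a := by
        by_contra hh
        push Not at hh
        linarith only [hα, ha, hβ, hh, mul_pos_of_neg_of_neg (Mathlib.Tactic.Linarith.sub_neg_of_lt hβ) (Mathlib.Tactic.Linarith.sub_neg_of_lt hh)]
      have haβ : β * a ≤ 1 := by
        have h1 : β * α ≤ β - 1 := by
          have := mul_le_mul_of_nonneg_left hC hβ0.le
          have e : β * (1 - 1 / β) = β - 1 := by field_simp
          linarith only [this, e]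
        have h2 : (β - 1) * (β * a) ≤ (β - 1) * 1 := by linarith only [ha, h1, hβ, Mathlib.Tactic.Linarith.mul_zero_eq (Mathlib.Tactic.Linarith.sub_neg_of_lt hβ) (sub_eq_zero_of_eq ha)]
        exact le_of_mul_le_mul_left h2 hβ1
      have inv : Inv β a (c + a) {y | y - a ∈ closure S} :=
        { hβ := hβ
          ha := ha0
          hc := by linarith only [hc, ha]
          haβ := haβ
          hw := by linarith
          closed := isClosed_closure.preimage (by fun_prop)
          left := by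
            intro u v hu huv hv hI y hy
            refine P1 (u - a) (v - a) (by linarith) (by linarith) (by linarith) ?_
              ⟨by linarith [hy.1], by linarith [hy.2]⟩
            intro x hx
            have := hI (show x + a ∈ Icc u v from ⟨by linarith [hx.1], by linarith [hx.2]⟩)
            simpa using this
          right := by
            intro u v hu huv hv hI y hy
            refine P2 (u - a) (v - a) (by linarith only [hu]) (by linarith) (by linarith) ?_
              ⟨by linarith [hy.1], by linarith [hy.2]⟩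
            intro x hx
            have := hI (show x + a ∈ Icc u v from ⟨by linarith [hx.1], by linarith [hx.2]⟩)
            simpa using this }
      have := inv.full (u + a) (v + a) (by linarith) (by linarith) (by linarith) (by
        intro y hy
        exact hI ⟨by linarith [hy.1], by linarith [hy.2]⟩)
      intro x hx
      have := this (show x + a ∈ Icc a (a + 1) from ⟨by linarith [hx.1], by linarith [hx.2]⟩)
      simpa using this
    · obtain ⟨a, ha⟩ : ∃ a, (β - 1) * a = 2 - β - α := ⟨(2 - β - α) / (β - 1), by field_simp⟩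
      have ha0 : 0 ≤ a := by
        by_contra hh
        push Not at hh
        linarith only [hαβ, ha, hβ, hh, mul_pos_of_neg_of_neg (Mathlib.Tactic.Linarith.sub_neg_of_lt hβ) (Mathlib.Tactic.Linarith.sub_neg_of_lt hh)]
      have haβ : β * a ≤ 1 := by
        have h1 : β * (2 - β - α) ≤ β - 1 := by
          have := mul_le_mul_of_nonneg_left hC hβ0.le
          have e : β * (1 + 1 / β - β) = β + 1 - β * β := by field_simp
          linarith only [this, e]
        have h2 : (β - 1) * (β * a) ≤ (β - 1) * 1 := by linarith only [ha, h1, hβ, Mathlib.Tactic.Linarith.mul_zero_eq (Mathlib.Tactic.Linarith.sub_neg_of_lt hβ) (sub_eq_zero_of_eq ha)]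
        exact le_of_mul_le_mul_left h2 hβ1
      have inv : Inv β a (1 + a - c) {y | 1 + a - y ∈ closure S} :=
        { hβ := hβ
          ha := ha0
          hc := by linarith only [hc, ha]
          haβ := haβ
          hw := by linarith
          closed := isClosed_closure.preimage (by fun_prop)
          left := by
            intro u v hu huv hv hI y hy
            refine P2 (1 + a - v) (1 + a - u) (by linarith) (by linarith) (by linarith) ?_
              ⟨by linarith only [ha, hy, hy.2], by linarith [hy.1]⟩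
            intro x hx
            have := hI (show 1 + a - x ∈ Icc u v from ⟨by linarith [hx.2], by linarith [hx.1]⟩)
            simpa using this
          right := by
            intro u v hu huv hv hI y hy
            refine P1 (1 + a - v) (1 + a - u) (by linarith) (by linarith) (by linarith) ?_
              ⟨by linarith [hy.2], by linarith [hy.1]⟩
            intro x hx
            have := hI (show 1 + a - x ∈ Icc u v from ⟨by linarith [hx.2], by linarith [hx.1]⟩)
            simpa using this }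
      have := inv.full (1 + a - v) (1 + a - u) (by linarith) (by linarith) (by linarith) (by
        intro y hy
        exact hI ⟨by linarith [hy.2], by linarith [hy.1]⟩)
      intro x hx
      have := this (show 1 + a - x ∈ Icc a (a + 1) from ⟨by linarith [hx.2], by linarith [hx.1]⟩)
      simpa using this
  obtain ⟨y, hyV, hy0, hy1⟩ := hVn
  obtain ⟨s, hsV, n, x, hx, rfl⟩ := mem_closure_iff.1 (hall ⟨hy0, hy1.le⟩) V hV hyV
  exact ⟨n, x, hx, hsV⟩

end Pool.Agent.Work.MP_ea58a7_an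
end
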